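import Pool.Agent.helper12.DD.Spec2

/-!
# PWF: the sums for `K` and the subgroups `E'` and `V₀` of `E'` add up to the sum for `E^Q`
-/

set_option autoImplicit false

open Pool.Agent.helper49.Blk

namespace Pool.Agent.DD

section PWFaux

variable {G E : Type} [Group G] [Group E]

/-- conjugation in `E'` by elements of `V₀` -/
theorem PWF_conj (ι : G →* E) (hn : ι.range.Normal) (Q : Type) [Group Q] (y : WE ι hn Q)
    (hy : y.1.right = 1) (a b : Q → G) :
    ((wι ι hn Q).comp (κι G Q)) b = y * ((wι ι hn Q).comp (κι G Q)) a * y⁻¹ ↔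
      ι.compLeft Q b = y.1.left * ι.compLeft Q a * (y.1.left)⁻¹ := by
  obtain ⟨⟨f, c⟩, hf⟩ := y
  have hc : c = 1 := hy
  subst hc
  have hval : ∀ x : Q → G, (((wι ι hn Q).comp (κι G Q)) x).1 =
      (⟨fun t => ι (x t), 1⟩ : Wr E Q) := fun x => rfl
  have key : ((⟨⟨f, 1⟩, hf⟩ : WE ι hn Q) * ((wι ι hn Q).comp (κι G Q)) a *
      (⟨⟨f, 1⟩, hf⟩ : WE ι hn Q)⁻¹).1 = (⟨f * ι.compLeft Q a * f⁻¹, 1⟩ : Wr E Q) := by
    change (⟨f, 1⟩ : Wr E Q) * (⟨fun t => ι (a t), 1⟩ : Wr E Q) * (⟨f, 1⟩ : Wr E Q)⁻¹ = _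
    apply SemidirectProduct.ext
    · rw [SemidirectProduct.mul_left, SemidirectProduct.mul_left, SemidirectProduct.inv_left]
      funext t
      change f t * ι (a ((1 : Q)⁻¹ * t)) * (f (((1 : Q)⁻¹)⁻¹ * (((1 : Q) * 1)⁻¹ * t)))⁻¹ =
        f t * ι (a t) * (f t)⁻¹
      simp
    · rw [SemidirectProduct.mul_right, SemidirectProduct.mul_right, SemidirectProduct.inv_right]
      simp
  rw [Subtype.ext_iff, key, hval]
  constructor
  · intro h
    exact congrArg SemidirectProduct.left h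
  · intro h
    apply SemidirectProduct.ext
    · exact h
    · rfl

theorem PWF_fix (ι : G →* E) (hn : ι.range.Normal) (Q : Type) [Group Q] (y : WE ι hn Q)
    (hy : y.1.right = 1) (S : Set (Subgroup (Q → G))) (N : Subgroup (Q → G)) (ψ : N → ℂ) :
    Fixes ((wι ι hn Q).comp (κι G Q)) S N ψ y ↔ Fixes (ι.compLeft Q) S N ψ y.1.left := by
  unfold Fixes
  simp only [PWF_conj ι hn Q y hy]

theorem PWF_main (hTPR : TPR_stmt) (hTNC : TNC_stmt) (hTIS : TIS_stmt) (hTFC : TFC_stmt)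
    (hSTS : STS_stmt) [Finite G] [Finite E] (ι : G →* E) (hn : ι.range.Normal)
    (Q : Type) [Group Q] [Fintype Q]
    (m : ℕ) (hT : Tower (Nat.card Q) m (κι G Q) (wι ι hn Q) (V0 ι hn Q))
    (p : ℕ) (hp : p.Prime) (C : List (Subgroup (Q → G))) (hC : Radical p C)
    (ψ : NC C → ℂ) (hψ : ψ ∈ Irr (NC C)) :
    StabIs (ι.compLeft Q) {P | P ∈ C} (NC C) ψ ⊤ ↔
      (StabIs ((wι ι hn Q).comp (κι G Q)) {P | P ∈ C} (NC C) ψ ⊤ ∨
        StabIs ((wι ι hn Q).comp (κι G Q)) {P | P ∈ C} (NC C) ψ (V0 ι hn Q)) := by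
  have hprod := hTPR G Q p hp C hC
  have hNC := hTNC G Q C hprod
  obtain ⟨_, V, hV, hVr⟩ := hSTS (Q → G) (WE ι hn Q) ((wι ι hn Q).comp (κι G Q))
    (hT.ωinj.comp hT.κinj) hT.ωκnor C (NC C) rfl ψ
  -- the two conditions on `V`
  have hiff : (StabIs ((wι ι hn Q).comp (κι G Q)) {P | P ∈ C} (NC C) ψ ⊤ ∨
        StabIs ((wι ι hn Q).comp (κι G Q)) {P | P ∈ C} (NC C) ψ (V0 ι hn Q)) ↔
      V0 ι hn Q ≤ V := by
    constructor
    · rintro (h | h)
      · have : V = ⊤ := by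
          ext e
          rw [hV e, ← h e]
        rw [this]
        exact le_top
      · have : V = V0 ι hn Q := by
          ext e
          rw [hV e, ← h e]
        rw [this]
    · intro h
      rcases hT.V0m V h with h1 | h1
      · right
        rw [← h1]
        exact hV
      · left
        rw [← h1]
        exact hV
  rw [hiff]
  -- congruent functions
  have hcongr : V0 ι hn Q ≤ V ↔ ∀ f : Q → E, (∀ s t, f s * (f t)⁻¹ ∈ ι.range) →
      ∃ g : Q → G, Fixes (ι.compLeft Q) {P | P ∈ C} (NC C) ψ (f * ι.compLeft Q g) := by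
    have hmul : ∀ (y : WE ι hn Q) (g : Q → G), y.1.right = 1 →
        (y * ((wι ι hn Q).comp (κι G Q)) g).1.right = 1 ∧
        (y * ((wι ι hn Q).comp (κι G Q)) g).1.left = y.1.left * ι.compLeft Q g := by
      rintro ⟨⟨f, c⟩, hf⟩ g hc
      have hc' : c = 1 := hc
      subst hc'
      change ((⟨f, 1⟩ : Wr E Q) * (⟨fun t => ι (g t), 1⟩ : Wr E Q)).right = 1 ∧
        ((⟨f, 1⟩ : Wr E Q) * (⟨fun t => ι (g t), 1⟩ : Wr E Q)).left = f * ι.compLeft Q g
      rw [SemidirectProduct.mul_right, SemidirectProduct.mul_left]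
      refine ⟨one_mul _, ?_⟩
      funext t
      simp [shift]
    constructor
    · intro h f hf
      have h1 : (⟨⟨f, 1⟩, hf⟩ : WE ι hn Q) ∈ V0 ι hn Q := rfl
      obtain ⟨g, hg⟩ := (hV _).1 (h h1)
      obtain ⟨h2, h3⟩ := hmul ⟨⟨f, 1⟩, hf⟩ g rfl
      rw [PWF_fix ι hn Q _ h2, h3] at hg
      exact ⟨g, hg⟩
    · intro h y hy
      have hy1 : y.1.right = 1 := hy
      obtain ⟨g, hg⟩ := h y.1.left y.2
      rw [hV]
      refine ⟨g, ?_⟩
      obtain ⟨h2, h3⟩ := hmul y g hy1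
      rw [PWF_fix ι hn Q _ h2, h3]
      exact hg
  rw [hcongr]
  constructor
  · intro h f _
    obtain ⟨g, hg⟩ := (h f).1 (Subgroup.mem_top f)
    exact ⟨g, hg⟩
  · intro h f
    refine ⟨fun _ => ?_, fun _ => Subgroup.mem_top f⟩
    have hpt : ∀ t : Q, ∃ g : Q → G, Fixes (ι.compLeft Q) {P | P ∈ C} (NC C) ψ
        ((fun _ => f t) * ι.compLeft Q g) := fun t => h (fun _ => f t) (fun s s' => by simp)
    choose g hg using hpt
    refine ⟨fun t => g t t, ?_⟩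
    -- write `NC C` as a product
    have hgen : ∀ (N : Subgroup (Q → G)) (N' : Q → Subgroup G), N = Subgroup.pi Set.univ N' →
        ∀ ψ : N → ℂ, ψ ∈ Irr N →
        (∀ t, Fixes (ι.compLeft Q) {P | P ∈ C} N ψ ((fun _ => f t) * ι.compLeft Q (g t))) →
        Fixes (ι.compLeft Q) {P | P ∈ C} N ψ (f * ι.compLeft Q (fun t => g t t)) := by
      intro N N' hN ψ hψ hfix
      subst hN
      obtain ⟨ψ', hψ', rfl⟩ := (hTIS G Q N' ψ).1 hψ
      have hne : ∀ t, ψ' t 1 ≠ 0 := by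
        intro t
        obtain ⟨⟨n, hn0, hn1⟩, _⟩ := (IRF (N' t)).2 (ψ' t) (hψ' t)
        rw [hn1]
        exact_mod_cast hn0.ne'
      have hiff2 := fun e : Q → E => hTFC G E Q ι {P | P ∈ C} hprod N' ψ' hne e
      rw [hiff2]
      intro t
      have h4 := (hiff2 _).1 (hfix t) t
      exact h4
    exact hgen (NC C) _ hNC ψ hψ hg

end PWFaux

theorem PWF (hTPR : TPR_stmt) (hTNC : TNC_stmt) (hTIS : TIS_stmt) (hTFC : TFC_stmt)
    (hSTS : STS_stmt) (hTOW : TOW_stmt) : PWF_stmt := by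
  intro p hp M G E _ _ _ _ ι hn hι Q _ _ hQ hcop χ d
  have hT := hTOW G E ι hn hι Q hQ hcop
  have hfin := (FIN (Q → G) p).1
  unfold altQ
  rw [← finsum_mem_add_distrib hfin]
  refine finsum_mem_congr rfl fun C hC => ?_
  have hC' : Radical p C := hC
  rw [← mul_add, ← add_div, ← add_mul]
  have hmain := PWF_main hTPR hTNC hTIS hTFC hSTS ι hn Q _ hT p hp C hC'
  have hk : kC p M ((wι ι hn Q).comp (κι G Q)) (tpow Q χ) C d ⊤ +
      kC p M ((wι ι hn Q).comp (κι G Q)) (tpow Q χ) C d (V0 ι hn Q) =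
      kC p M (ι.compLeft Q) (tpow Q χ) C d ⊤ := by
    unfold kC
    have hIF : (Irr (NC C)).Finite := (IRF (NC C)).1
    have hsub : ∀ (E' : Type) [Group E'] (ι' : (Q → G) →* E') (U : Subgroup E'),
        kset p M ι' (tpow Q χ) (NC C) {P | P ∈ C} d U ⊆ Irr (NC C) := fun E' _ ι' U ψ hψ => hψ.1
    have hdisj : Disjoint
        (kset p M ((wι ι hn Q).comp (κι G Q)) (tpow Q χ) (NC C) {P | P ∈ C} d ⊤)
        (kset p M ((wι ι hn Q).comp (κι G Q)) (tpow Q χ) (NC C) {P | P ∈ C} d (V0 ι hn Q)) := by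
      rw [Set.disjoint_left]
      rintro ψ ⟨_, _, _, h1⟩ ⟨_, _, _, h2⟩
      have h3 : (⊤ : Subgroup (WE ι hn Q)) = V0 ι hn Q := by
        ext e
        rw [h1 e, ← h2 e]
      have hcard : Nat.card (Wr G Q) = Nat.card (Q → G) := by
        have h5 : Function.Surjective (κι G Q) := by
          intro w
          exact hT.V0i w (by rw [← h3]; exact Subgroup.mem_top _)
        exact (Nat.card_congr (Equiv.ofBijective _ ⟨hT.κinj, h5⟩)).symm
      have h6 := hT.card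
      rw [hcard] at h6
      have h7 : 0 < Nat.card (Q → G) := Nat.card_pos
      have h8 := hQ.two_le
      nlinarith
    rw [← Set.ncard_union_eq hdisj (hIF.subset (hsub _ _ _)) (hIF.subset (hsub _ _ _))]
    congr 1
    ext ψ
    constructor
    · rintro (⟨h1, h2, h3, h4⟩ | ⟨h1, h2, h3, h4⟩)
      · exact ⟨h1, h2, h3, (hmain ψ h1).2 (Or.inl h4)⟩
      · exact ⟨h1, h2, h3, (hmain ψ h1).2 (Or.inr h4)⟩
    · rintro ⟨h1, h2, h3, h4⟩
      rcases (hmain ψ h1).1 h4 with h5 | h5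
      · exact Or.inl ⟨h1, h2, h3, h5⟩
      · exact Or.inr ⟨h1, h2, h3, h5⟩
  have hk' : (kC p M ((wι ι hn Q).comp (κι G Q)) (tpow Q χ) C d ⊤ : ℚ) +
      (kC p M ((wι ι hn Q).comp (κι G Q)) (tpow Q χ) C d (V0 ι hn Q) : ℚ) =
      (kC p M (ι.compLeft Q) (tpow Q χ) C d ⊤ : ℚ) := by exact_mod_cast hk
  rw [hk']

end Pool.Agent.DD
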